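import Pool.Agent.R109.GT.Defs

open MeasureTheory Set Filter Topology
open scoped ENNReal

namespace R109.GT

theorem phi_nonneg (x : ℝ) : 0 ≤ phi x := abs_nonneg _
theorem phi_le_half (x : ℝ) : phi x ≤ 1 / 2 := abs_sub_round x
theorem phi_le_abs (x : ℝ) (m : ℤ) : phi x ≤ |x - m| := round_le x m

theorem phi_lip (x y : ℝ) : phi x - phi y ≤ |x - y| := by
  have h := phi_le_abs x (round y)
  have h2 : |x - round y| ≤ |x - y| + |y - round y| := by
    have := abs_add_le (x - y) (y - round y)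
    simpa using this
  have h3 : phi y = |y - round y| := rfl
  linarith

theorem term_lip (s : ℤ → ℤ) (hs : ∀ j, s j = 1 ∨ s j = -1) (u v : ℝ) (huv : u ≤ v) :
    |(s ⌊u⌋ : ℝ) * phi u - (s ⌊v⌋ : ℝ) * phi v| ≤ v - u := by
  have habs : ∀ j, |(s j : ℝ)| = 1 := fun j => by rcases hs j with h | h <;> simp [h]
  by_cases h : ⌊u⌋ = ⌊v⌋
  · rw [h, ← mul_sub, abs_mul, habs, one_mul, abs_le]
    have a := phi_lip u v
    have b := phi_lip v u
    rw [abs_sub_comm, abs_of_nonneg (by linarith : (0:ℝ) ≤ v - u)] at a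
    rw [abs_of_nonneg (by linarith : (0:ℝ) ≤ v - u)] at b
    constructor <;> linarith
  · have hlt : ⌊u⌋ < ⌊v⌋ := lt_of_le_of_ne (Int.floor_mono huv) h
    have h1 : u < ⌊v⌋ := Int.floor_lt.mp hlt
    have h2 : (⌊v⌋:ℝ) ≤ v := Int.floor_le v
    have h3 := phi_le_abs u ⌊v⌋
    have h4 := phi_le_abs v ⌊v⌋
    rw [abs_of_nonpos (by linarith)] at h3
    rw [abs_of_nonneg (by linarith)] at h4
    have h5 := abs_sub ((s ⌊u⌋ : ℝ) * phi u) ((s ⌊v⌋ : ℝ) * phi v)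
    rw [abs_mul, abs_mul, habs, habs, one_mul, one_mul, abs_of_nonneg (phi_nonneg u),
      abs_of_nonneg (phi_nonneg v)] at h5
    linarith

theorem term_cont (s : ℤ → ℤ) (hs : ∀ j, s j = 1 ∨ s j = -1) :
    Continuous (fun u : ℝ => (s ⌊u⌋ : ℝ) * phi u) := by
  have : LipschitzWith 1 (fun u : ℝ => (s ⌊u⌋ : ℝ) * phi u) := by
    apply LipschitzWith.mk_one
    intro u v
    rw [Real.dist_eq, Real.dist_eq]
    rcases le_total u v with h | h
    · have := term_lip s hs u v h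
      rw [abs_sub_comm u v, abs_of_nonneg (by linarith : (0:ℝ) ≤ v - u)]
      exact this
    · have := term_lip s hs v u h
      rw [abs_of_nonneg (by linarith : (0:ℝ) ≤ u - v), abs_sub_comm]
      exact this
  exact this.continuous

theorem term_bound (w : ℕ → ℤ → ℤ) (hw : Sgn w) (n : ℕ) (x : ℝ) :
    ‖(w n ⌊(2:ℝ) ^ n * x⌋ : ℝ) * phi ((2:ℝ) ^ n * x) / 2 ^ n‖ ≤ 1 / 2 / 2 ^ n := by
  have habs : |(w n ⌊(2:ℝ) ^ n * x⌋ : ℝ)| = 1 := by
    rcases hw n ⌊(2:ℝ) ^ n * x⌋ with h | h <;> simp [h]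
  rw [Real.norm_eq_abs, abs_div, abs_mul, habs, one_mul, abs_of_nonneg (phi_nonneg _),
    abs_of_pos (by positivity : (0:ℝ) < 2 ^ n)]
  gcongr
  exact phi_le_half _

theorem hasSum_geo : HasSum (fun n : ℕ => (1:ℝ) / 2 / 2 ^ n) 1 := hasSum_geometric_two' 1

theorem summ (w : ℕ → ℤ → ℤ) (hw : Sgn w) (x : ℝ) :
    Summable (fun n : ℕ => (w n ⌊(2:ℝ) ^ n * x⌋ : ℝ) * phi ((2:ℝ) ^ n * x) / 2 ^ n) :=
  Summable.of_norm_bounded hasSum_geo.summable (fun n => term_bound w hw n x)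

theorem cont (w : ℕ → ℤ → ℤ) (hw : Sgn w) : Continuous (tak w) := by
  unfold tak
  refine continuous_tsum (u := fun n : ℕ => (1:ℝ) / 2 / 2 ^ n) ?_ hasSum_geo.summable
    (fun n x => term_bound w hw n x)
  intro n
  have h := (term_cont (w n) (hw n)).comp (continuous_const.mul continuous_id : Continuous (fun x : ℝ => (2:ℝ) ^ n * x))
  exact h.div_const _

theorem bound (w : ℕ → ℤ → ℤ) (hw : Sgn w) (x : ℝ) : |tak w x| ≤ 1 := by
  rw [← Real.norm_eq_abs]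
  exact tsum_of_norm_bounded hasSum_geo (fun n => term_bound w hw n x)

theorem floor_div (n m : ℕ) (x : ℝ) : ⌊(2:ℝ) ^ n * x⌋ = ⌊(2:ℝ) ^ (n + m) * x⌋ / 2 ^ m := by
  have h : (2:ℝ) ^ n * x = ((2:ℝ) ^ (n + m) * x) / ((2 ^ m : ℕ) : ℝ) := by
    push_cast
    rw [pow_add]
    field_simp
  rw [h, Int.floor_div_natCast]
  push_cast
  rfl

theorem floor_half (u : ℝ) : ⌊u⌋ = ⌊2 * u⌋ / 2 := by
  have := floor_div 0 1 u
  simpa using this

theorem phi_even (u : ℝ) (h : ⌊2 * u⌋ % 2 = 0) : phi u = u - ⌊u⌋ := by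
  have h0 := floor_half u
  have h1 : ⌊2 * u⌋ = 2 * ⌊u⌋ := by omega
  have h2 := Int.lt_floor_add_one (2 * u)
  rw [h1] at h2
  push_cast at h2
  have h3 := Int.floor_le u
  have h4 : phi u = min (Int.fract u) (1 - Int.fract u) := abs_sub_round_eq_min u
  rw [h4, Int.fract, min_eq_left (by linarith)]

theorem phi_odd (u : ℝ) (h : ¬ ⌊2 * u⌋ % 2 = 0) : phi u = ⌊u⌋ + 1 - u := by
  have h0 := floor_half u
  have h1 : ⌊2 * u⌋ = 2 * ⌊u⌋ + 1 := by omega
  have h2 := Int.floor_le (2 * u)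
  rw [h1] at h2
  push_cast at h2
  have h3 := Int.lt_floor_add_one u
  have h4 : phi u = min (Int.fract u) (1 - Int.fract u) := abs_sub_round_eq_min u
  rw [h4, Int.fract, min_eq_right (by linarith)]
  ring

theorem part_eq (w : ℕ → ℤ → ℤ) (n : ℕ) (x : ℝ) :
    part w n x = (val w n ⌊(2:ℝ) ^ n * x⌋ + S w n x * ((2:ℝ) ^ n * x - ⌊(2:ℝ) ^ n * x⌋)) / 2 ^ n := by
  induction n with
  | zero => simp [part, val, S, slope]
  | succ n ih =>
    have hrec : part w (n + 1) x = part w n x + (w n ⌊(2:ℝ) ^ n * x⌋ : ℝ) * phi ((2:ℝ) ^ n * x) / 2 ^ n := by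
      unfold part
      rw [Finset.sum_range_succ]
    rw [hrec, ih]
    set u := (2:ℝ) ^ n * x with hu
    have hu2 : (2:ℝ) ^ (n + 1) * x = 2 * u := by rw [hu, pow_succ]; ring
    have hi : ⌊2 * u⌋ / 2 = ⌊u⌋ := (floor_half u).symm
    unfold S
    rw [hu2, ← hu]
    simp only [val, slope, hi]
    by_cases h : ⌊2 * u⌋ % 2 = 0
    · rw [phi_even u h]
      have h1 : ⌊2 * u⌋ = 2 * ⌊u⌋ := by omega
      rw [h1]
      simp only [Int.mul_emod_right, if_true]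
      push_cast
      rw [pow_succ]
      field_simp
      ring
    · rw [phi_odd u h]
      have h1 : ⌊2 * u⌋ = 2 * ⌊u⌋ + 1 := by omega
      simp only [h, if_false]
      rw [h1]
      push_cast
      rw [pow_succ]
      field_simp
      ring

theorem split (w : ℕ → ℤ → ℤ) (hw : Sgn w) (n : ℕ) (x : ℝ) :
    tak w x = part w n x + tak (fun m => w (n + m)) ((2:ℝ) ^ n * x) / 2 ^ n := by
  have h := (summ w hw x).sum_add_tsum_nat_add n
  unfold tak part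
  rw [← h]
  congr 1
  rw [← tsum_div_const]
  apply tsum_congr
  intro m
  have e1 : (2:ℝ) ^ (m + n) * x = 2 ^ m * (2 ^ n * x) := by rw [pow_add]; ring
  rw [e1, add_comm m n, pow_add, div_div]
  congr 1
  ring

theorem tak_eq (w : ℕ → ℤ → ℤ) (hw : Sgn w) (n : ℕ) (x : ℝ) :
    tak w x = (val w n ⌊(2:ℝ) ^ n * x⌋ + S w n x * ((2:ℝ) ^ n * x - ⌊(2:ℝ) ^ n * x⌋)
      + tak (fun m => w (n + m)) ((2:ℝ) ^ n * x)) / 2 ^ n := by
  rw [split w hw n x, part_eq, ← add_div]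

end R109.GT
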