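import Pool.Agent.R109.GT.A

open MeasureTheory Set Filter Topology
open scoped ENNReal

namespace R109.GT

namespace PB

/-- the facts of piece A that are used -/
structure FactsA : Prop where
  bound : ∀ w : ℕ → ℤ → ℤ, Sgn w → ∀ x : ℝ, |tak w x| ≤ 1
  floor_div : ∀ (n m : ℕ) (x : ℝ), ⌊(2:ℝ) ^ n * x⌋ = ⌊(2:ℝ) ^ (n + m) * x⌋ / 2 ^ m
  tak_eq : ∀ w : ℕ → ℤ → ℤ, Sgn w → ∀ (n : ℕ) (x : ℝ),
    tak w x = (val w n ⌊(2:ℝ) ^ n * x⌋ + S w n x * ((2:ℝ) ^ n * x - ⌊(2:ℝ) ^ n * x⌋)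
      + tak (fun m => w (n + m)) ((2:ℝ) ^ n * x)) / 2 ^ n

/-- points of `J N j` with positive slopes from level `N` on -/
def Rp (w : ℕ → ℤ → ℤ) (N : ℕ) (j : ℤ) : Set ℝ :=
  {x | x ∈ J N j ∧ ∀ n, N ≤ n → 1 ≤ S w n x}

/-- index -/
noncomputable abbrev ix (n : ℕ) (x : ℝ) : ℤ := ⌊(2:ℝ) ^ n * x⌋

theorem ix_half (A : FactsA) (n : ℕ) (x : ℝ) : ix (n + 1) x / 2 = ix n x := by
  have := A.floor_div n 1 x
  rw [pow_one] at this
  exact this.symm

theorem val_succ (w : ℕ → ℤ → ℤ) (A : FactsA) (n : ℕ) (x : ℝ) :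
    val w (n + 1) (ix (n + 1) x) = 2 * val w n (ix n x) +
      (if ix (n + 1) x % 2 = 0 then 0 else slope w n (ix n x) + w n (ix n x)) := by
  rw [val, ix_half A]

theorem slope_succ (w : ℕ → ℤ → ℤ) (A : FactsA) (n : ℕ) (x : ℝ) :
    slope w (n + 1) (ix (n + 1) x) = slope w n (ix n x) +
      w n (ix n x) * (if ix (n + 1) x % 2 = 0 then 1 else -1) := by
  rw [slope, ix_half A]

/-- left value -/
noncomputable def cL (w : ℕ → ℤ → ℤ) (n : ℕ) (x : ℝ) : ℝ := (val w n (ix n x) : ℝ) / 2 ^ n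

/-- right value -/
noncomputable def dR (w : ℕ → ℤ → ℤ) (n : ℕ) (x : ℝ) : ℝ :=
  ((val w n (ix n x) : ℝ) + slope w n (ix n x)) / 2 ^ n

theorem step (w : ℕ → ℤ → ℤ) (hw : Sgn w) (A : FactsA) (n : ℕ) (x : ℝ)
    (hs : 1 ≤ slope w n (ix n x)) :
    cL w n x ≤ cL w (n + 1) x ∧ dR w (n + 1) x ≤ dR w n x := by
  have h2 : (0:ℝ) < 2 ^ n := by positivity
  have hv := val_succ w A n x
  have hsl := slope_succ w A n x
  have hw' : -1 ≤ w n (ix n x) ∧ w n (ix n x) ≤ 1 := by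
    rcases hw n (ix n x) with h | h <;> rw [h] <;> norm_num
  have hsR : (1:ℝ) ≤ (slope w n (ix n x) : ℝ) := by exact_mod_cast hs
  have hw1 : (-1:ℝ) ≤ (w n (ix n x) : ℝ) := by exact_mod_cast hw'.1
  have hw2 : (w n (ix n x) : ℝ) ≤ 1 := by exact_mod_cast hw'.2
  unfold cL dR
  rw [pow_succ]
  by_cases hpar : ix (n + 1) x % 2 = 0
  · rw [if_pos hpar] at hv hsl
    rw [hv, hsl]
    push_cast
    constructor
    · rw [div_le_div_iff₀ h2 (by positivity)]
      nlinarith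
    · rw [div_le_div_iff₀ (by positivity) h2]
      nlinarith
  · rw [if_neg hpar] at hv hsl
    rw [hv, hsl]
    push_cast
    constructor
    · rw [div_le_div_iff₀ h2 (by positivity)]
      nlinarith
    · rw [div_le_div_iff₀ (by positivity) h2]
      nlinarith

theorem chain (w : ℕ → ℤ → ℤ) (hw : Sgn w) (A : FactsA) (N : ℕ) (x : ℝ)
    (hs : ∀ n, N ≤ n → 1 ≤ S w n x) (n : ℕ) (hn : N ≤ n) (m : ℕ) :
    cL w n x ≤ cL w (n + m) x ∧ dR w (n + m) x ≤ dR w n x := by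
  induction m with
  | zero => exact ⟨le_refl _, le_refl _⟩
  | succ m ih =>
    have h := step w hw A (n + m) x (hs (n + m) (by omega))
    rw [← add_assoc]
    exact ⟨ih.1.trans h.1, h.2.trans ih.2⟩

theorem near (w : ℕ → ℤ → ℤ) (hw : Sgn w) (A : FactsA) (n : ℕ) (x : ℝ) (hs : 1 ≤ S w n x) :
    cL w n x ≤ tak w x + 1 / 2 ^ n ∧ tak w x ≤ dR w n x + 1 / 2 ^ n := by
  have h2 : (0:ℝ) < 2 ^ n := by positivity
  have hb := A.bound (fun m => w (n + m)) (fun a b => hw (n + a) b) ((2:ℝ) ^ n * x)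
  rw [abs_le] at hb
  have he := A.tak_eq w hw n x
  have hf0 : 0 ≤ (2:ℝ) ^ n * x - ⌊(2:ℝ) ^ n * x⌋ := by
    have := Int.floor_le ((2:ℝ) ^ n * x); linarith
  have hf1 : (2:ℝ) ^ n * x - ⌊(2:ℝ) ^ n * x⌋ ≤ 1 := by
    have := Int.lt_floor_add_one ((2:ℝ) ^ n * x); linarith
  have hsR : (1:ℝ) ≤ (S w n x : ℝ) := by exact_mod_cast hs
  have hS : (S w n x : ℝ) = (slope w n (ix n x) : ℝ) := rfl
  unfold cL dR
  rw [he, ← add_div, ← add_div, ← hS]
  constructor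
  · apply div_le_div_of_nonneg_right _ h2.le
    nlinarith [mul_nonneg (by linarith : (0:ℝ) ≤ S w n x) hf0]
  · apply div_le_div_of_nonneg_right _ h2.le
    nlinarith [mul_le_mul_of_nonneg_left hf1 (by linarith : (0:ℝ) ≤ S w n x)]

theorem between (w : ℕ → ℤ → ℤ) (hw : Sgn w) (A : FactsA) (N : ℕ) (x : ℝ)
    (hs : ∀ n, N ≤ n → 1 ≤ S w n x) (n : ℕ) (hn : N ≤ n) :
    cL w n x ≤ tak w x ∧ tak w x ≤ dR w n x := by
  have htend : ∀ a : ℝ, Tendsto (fun m : ℕ => a + 1 / (2:ℝ) ^ (n + m)) atTop (𝓝 (a + 0)) := by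
    intro a
    apply Tendsto.const_add
    have h1 : Tendsto (fun m : ℕ => (1 / 2 : ℝ) ^ m) atTop (𝓝 0) :=
      tendsto_pow_atTop_nhds_zero_of_lt_one (by norm_num) (by norm_num)
    have h2 : Tendsto (fun m : ℕ => (1 / 2 : ℝ) ^ n * (1 / 2 : ℝ) ^ m) atTop (𝓝 0) := by
      simpa using h1.const_mul ((1 / 2 : ℝ) ^ n)
    refine h2.congr (fun m => ?_)
    rw [← pow_add, one_div_pow]
  constructor
  · have ht := htend (tak w x)
    rw [add_zero] at ht
    refine ge_of_tendsto' ht (fun m => ?_)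
    exact (chain w hw A N x hs n hn m).1.trans (near w hw A (n + m) x (hs _ (by omega))).1
  · have ht := htend (dR w n x)
    rw [add_zero] at ht
    refine ge_of_tendsto' ht (fun m => ?_)
    have h1 := (near w hw A (n + m) x (hs _ (by omega))).2
    have h2 := (chain w hw A N x hs n hn m).2
    linarith

theorem exists_diff (x y : ℝ) (hxy : x < y) : ∃ n : ℕ, ∀ m, n ≤ m → ix m x ≠ ix m y := by
  obtain ⟨n, hn⟩ := pow_unbounded_of_one_lt (1 / (y - x)) (by norm_num : (1:ℝ) < 2)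
  refine ⟨n, fun m hm h => ?_⟩
  have h1 := Int.floor_le ((2:ℝ) ^ m * x)
  have h2 := Int.lt_floor_add_one ((2:ℝ) ^ m * x)
  have h3 := Int.floor_le ((2:ℝ) ^ m * y)
  have h4 := Int.lt_floor_add_one ((2:ℝ) ^ m * y)
  have h5 : (2:ℝ) ^ n ≤ 2 ^ m := pow_le_pow_right₀ (by norm_num) hm
  have h6 : (1:ℝ) < 2 ^ m * (y - x) := by
    rw [div_lt_iff₀ (by linarith)] at hn
    have : (2:ℝ) ^ n * (y - x) ≤ 2 ^ m * (y - x) :=
      mul_le_mul_of_nonneg_right h5 (by linarith)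
    linarith
  have h7 : ((ix m x : ℤ) : ℝ) = ((ix m y : ℤ) : ℝ) := by exact_mod_cast h
  have h8 : (⌊(2:ℝ) ^ m * x⌋ : ℝ) = (⌊(2:ℝ) ^ m * y⌋ : ℝ) := h7
  nlinarith

theorem mono (w : ℕ → ℤ → ℤ) (hw : Sgn w) (A : FactsA) (N : ℕ) (j : ℤ) :
    MonotoneOn (tak w) (Rp w N j) := by
  intro x hx y hy hxy
  rcases hxy.eq_or_lt with rfl | hlt
  · exact le_refl _
  obtain ⟨n₀, hn₀⟩ := exists_diff x y hlt
  have hex : ∃ k, ix (N + k) x ≠ ix (N + k) y := ⟨n₀, hn₀ _ (by omega)⟩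
  classical
  set k := Nat.find hex with hk
  have hk1 : ix (N + k) x ≠ ix (N + k) y := Nat.find_spec hex
  have hkpos : k ≠ 0 := by
    intro h0
    apply hk1
    rw [h0, add_zero]
    have h1 : ix N x = j := hx.1
    have h2 : ix N y = j := hy.1
    rw [h1, h2]
  obtain ⟨l, hl⟩ := Nat.exists_eq_succ_of_ne_zero hkpos
  have hlk : ix (N + l) x = ix (N + l) y := by
    by_contra hcon
    have := Nat.find_min' hex hcon
    omega
  rw [hl] at hk1
  have e1 : N + l.succ = (N + l) + 1 := by omega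
  rw [e1] at hk1
  have hle : ix (N + l + 1) x ≤ ix (N + l + 1) y :=
    Int.floor_mono (mul_le_mul_of_nonneg_left hxy (by positivity))
  have hx2 := ix_half A (N + l) x
  have hy2 := ix_half A (N + l) y
  have hxe : ix (N + l + 1) x % 2 = 0 := by omega
  have hye : ¬ ix (N + l + 1) y % 2 = 0 := by omega
  have h1 := (between w hw A N x hx.2 (N + l + 1) (by omega)).2
  have h2 := (between w hw A N y hy.2 (N + l + 1) (by omega)).1
  refine h1.trans (le_trans (le_of_eq ?_) h2)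
  unfold cL dR
  rw [val_succ w A, val_succ w A, slope_succ w A, if_pos hxe, if_pos hxe, if_neg hye, hlk]
  push_cast
  ring

theorem slope_neg (w : ℕ → ℤ → ℤ) (n : ℕ) (j : ℤ) :
    slope (fun n j => -w n j) n j = - slope w n j := by
  induction n generalizing j with
  | zero => simp [slope]
  | succ n ih => rw [slope, slope, ih]; ring

theorem tak_neg (w : ℕ → ℤ → ℤ) (x : ℝ) : tak (fun n j => -w n j) x = - tak w x := by
  unfold tak
  rw [← tsum_neg]
  congr 1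
  ext n
  push_cast
  ring

theorem S_neg (w : ℕ → ℤ → ℤ) (n : ℕ) (x : ℝ) : S (fun n j => -w n j) n x = - S w n x :=
  slope_neg w n _

theorem sgn_neg {w : ℕ → ℤ → ℤ} (hw : Sgn w) : Sgn (fun n j => -w n j) := by
  intro n j
  rcases hw n j with h | h
  · right; simp [h]
  · left; simp [h]

theorem pos_of (w : ℕ → ℤ → ℤ) (hw : Sgn w) (A : FactsA) (N : ℕ) (x : ℝ)
    (h0 : ∀ n, N ≤ n → S w n x ≠ 0) (hN : 1 ≤ S w N x) : ∀ n, N ≤ n → 1 ≤ S w n x := by
  intro n hn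
  induction n, hn using Nat.le_induction with
  | base => exact hN
  | succ n hn ih =>
    have h1 : S w (n + 1) x = S w n x + w n (ix n x) * (if ix (n + 1) x % 2 = 0 then 1 else -1) :=
      slope_succ w A n x
    have h2 : -1 ≤ w n (ix n x) * (if ix (n + 1) x % 2 = 0 then 1 else -1) := by
      rcases hw n (ix n x) with h | h <;> rw [h] <;> split_ifs <;> norm_num
    have h3 := h0 (n + 1) (by omega)
    omega

/-- the exceptional values for the positive part -/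
def bad (w : ℕ → ℤ → ℤ) (N : ℕ) (j : ℤ) : Set ℝ :=
  {c | ∃ x y, x ∈ Rp w N j ∧ y ∈ Rp w N j ∧ x < y ∧ tak w x = c ∧ tak w y = c}

theorem sub_of (w : ℕ → ℤ → ℤ) (N : ℕ) (j : ℤ) (y : ℝ) (hy : y ∉ bad w N j) :
    {x | x ∈ Rp w N j ∧ tak w x = y}.Finite := by
  apply Set.Subsingleton.finite
  intro a ha b hb
  by_contra hab
  rcases lt_or_gt_of_ne hab with h | h
  · exact hy ⟨a, b, ha.1, hb.1, h, ha.2, hb.2⟩
  · exact hy ⟨b, a, hb.1, ha.1, h, hb.2, ha.2⟩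

theorem bad_countable (w : ℕ → ℤ → ℤ) (hw : Sgn w) (A : FactsA) (N : ℕ) (j : ℤ) :
    (bad w N j).Countable :=
  (mono w hw A N j).countable_setOfPred_two_preimages

/-- Piece B, from the facts of piece A. -/
theorem fib_countable_of (A : FactsA) (w : ℕ → ℤ → ℤ) (hw : Sgn w) (N : ℕ) (j : ℤ) :
    {y : ℝ | ¬ {x | x ∈ J N j ∧ (∀ n, N ≤ n → S w n x ≠ 0) ∧ tak w x = y}.Finite}.Countable := by
  have h1 := bad_countable w hw A N j
  have h2 := bad_countable (fun n j => -w n j) (sgn_neg hw) A N j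
  refine (h1.union (h2.image (fun y : ℝ => -y))).mono ?_
  intro y hy
  by_contra hcon
  rw [Set.mem_union, not_or] at hcon
  apply hy
  have f1 := sub_of w N j y hcon.1
  have f2 := sub_of (fun n j => -w n j) N j (-y) (by
    intro hb
    exact hcon.2 ⟨-y, hb, by ring⟩)
  refine (f1.union f2).subset ?_
  rintro x ⟨hx1, hx2, hx3⟩
  rcases lt_or_ge (S w N x) 1 with h | h
  · right
    refine ⟨⟨hx1, pos_of _ (sgn_neg hw) A N x ?_ ?_⟩, ?_⟩
    · intro n hn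
      rw [S_neg]
      exact neg_ne_zero.mpr (hx2 n hn)
    · rw [S_neg]
      have := hx2 N le_rfl
      omega
    · rw [tak_neg, hx3]
  · left
    exact ⟨⟨hx1, pos_of w hw A N x hx2 h⟩, hx3⟩

theorem factsA : FactsA where
  bound := bound
  floor_div := floor_div
  tak_eq := tak_eq

end PB

theorem fib_countable (w : ℕ → ℤ → ℤ) (hw : Sgn w) (N : ℕ) (j : ℤ) :
    {y : ℝ | ¬ {x | x ∈ J N j ∧ (∀ n, N ≤ n → S w n x ≠ 0) ∧ tak w x = y}.Finite}.Countable :=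
  PB.fib_countable_of PB.factsA w hw N j

end R109.GT
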