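import Pool.Agent.R109.GT.Defs

/-! Piece C of project GT: measure bookkeeping. -/

open MeasureTheory Set Filter Topology
open scoped ENNReal

namespace R109.GT.PC

theorem J_eq_Ico (n : ℕ) (j : ℤ) : J n j = Ico ((j : ℝ) / 2 ^ n) ((j + 1 : ℝ) / 2 ^ n) := by
  have h2 : (0 : ℝ) < 2 ^ n := by positivity
  ext x
  simp only [J, mem_ofPred_eq, mem_Ico, Int.floor_eq_iff]
  rw [div_le_iff₀ h2, lt_div_iff₀ h2, mul_comm x]

theorem measurableSet_J (n : ℕ) (j : ℤ) : MeasurableSet (J n j) := by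
  rw [J_eq_Ico]
  exact measurableSet_Ico

theorem measurable_S (w : ℕ → ℤ → ℤ) (n : ℕ) : Measurable (S w n) :=
  (Measurable.of_discrete (f := slope w n)).comp
    (Int.measurable_floor.comp (measurable_const_mul ((2 : ℝ) ^ n)))

theorem first_eq (w : ℕ → ℤ → ℤ) (N : ℕ) (j : ℤ) (n : ℕ) : first w N j n =
    J N j ∩ ({_x | N ≤ n} ∩ (S w n ⁻¹' {0} ∩
      ⋂ m : ℕ, ({_x | N ≤ m → m < n → False} ∪ (S w m ⁻¹' {0})ᶜ))) := by
  ext x
  simp only [first, mem_ofPred_eq, mem_inter_iff, mem_preimage, mem_singleton_iff, mem_iInter,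
    mem_union, mem_compl_iff]
  constructor
  · rintro ⟨h1, h2, h3, h4⟩
    refine ⟨h1, h2, h3, fun m => ?_⟩
    by_cases hm : N ≤ m ∧ m < n
    · exact Or.inr (h4 m hm.1 hm.2)
    · exact Or.inl fun ha hb => hm ⟨ha, hb⟩
  · rintro ⟨h1, h2, h3, h4⟩
    refine ⟨h1, h2, h3, fun m ha hb => ?_⟩
    rcases h4 m with h | h
    · exact (h ha hb).elim
    · exact h

theorem measurableSet_first (w : ℕ → ℤ → ℤ) (N : ℕ) (j : ℤ) (n : ℕ) :
    MeasurableSet (first w N j n) := by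
  rw [first_eq]
  refine (measurableSet_J N j).inter ((MeasurableSet.const _).inter
    ((measurable_S w n (MeasurableSet.singleton 0)).inter (MeasurableSet.iInter fun m => ?_)))
  exact (MeasurableSet.const _).union (measurable_S w m (MeasurableSet.singleton 0)).compl

theorem first_disj (w : ℕ → ℤ → ℤ) (N : ℕ) (j : ℤ) :
    Pairwise (Function.onFun Disjoint (first w N j)) := by
  have key : ∀ n n' x, n < n' → x ∈ first w N j n → x ∈ first w N j n' → False := by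
    intro n n' x hn h1 h2
    exact h2.2.2.2 n h1.2.1 hn h1.2.2.1
  intro n n' hn
  rw [Function.onFun, Set.disjoint_left]
  intro x h1 h2
  rcases lt_or_gt_of_ne hn with h | h
  · exact key n n' x h h1 h2
  · exact key n' n x h h2 h1

theorem J_disj (n : ℕ) : Pairwise (Function.onFun Disjoint (J n)) := by
  intro i i' hi
  rw [Function.onFun, Set.disjoint_left]
  intro x h1 h2
  exact hi (h1.symm.trans h2)

theorem floor_level {m n : ℕ} (hmn : m ≤ n) (x : ℝ) :
    ⌊(2:ℝ) ^ m * x⌋ = ⌊(2:ℝ) ^ n * x⌋ / 2 ^ (n - m) := by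
  have h := Int.floor_div_natCast ((2:ℝ) ^ n * x) (2 ^ (n - m))
  have h2 : (2:ℝ) ^ n * x / ((2 ^ (n - m) : ℕ) : ℝ) = (2:ℝ) ^ m * x := by
    have : (2:ℝ) ^ n = 2 ^ m * 2 ^ (n - m) := by rw [← pow_add, Nat.add_sub_cancel' hmn]
    rw [this]
    push_cast
    field_simp
  rw [h2] at h
  rw [h]
  push_cast
  rfl

theorem S_congr (w : ℕ → ℤ → ℤ) {m n : ℕ} (hmn : m ≤ n) {x y : ℝ}
    (h : ⌊(2:ℝ) ^ n * x⌋ = ⌊(2:ℝ) ^ n * y⌋) : S w m x = S w m y := by
  rw [S, S, floor_level hmn x, floor_level hmn y, h]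

theorem first_inter_J (w : ℕ → ℤ → ℤ) (N : ℕ) (j : ℤ) (n : ℕ) (i : ℤ) :
    first w N j n ∩ J n i = ∅ ∨ (N ≤ n ∧ slope w n i = 0 ∧ first w N j n ∩ J n i = J n i) := by
  rcases Set.eq_empty_or_nonempty (first w N j n ∩ J n i) with h | ⟨x, hx, hxi⟩
  · exact Or.inl h
  · right
    have hxi' : ⌊(2:ℝ) ^ n * x⌋ = i := hxi
    refine ⟨hx.2.1, ?_, ?_⟩
    · have := hx.2.2.1
      rw [S, hxi'] at this
      exact this
    · refine Set.inter_eq_right.mpr fun y hy => ?_
      have hyi : ⌊(2:ℝ) ^ n * y⌋ = i := hy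
      have hxy : ⌊(2:ℝ) ^ n * y⌋ = ⌊(2:ℝ) ^ n * x⌋ := hyi.trans hxi'.symm
      refine ⟨?_, hx.2.1, ?_, fun m h1 h2 => ?_⟩
      · have h0 : ⌊(2:ℝ) ^ N * x⌋ = j := hx.1
        show ⌊(2:ℝ) ^ N * y⌋ = j
        rw [floor_level hx.2.1 y, hxy, ← floor_level hx.2.1 x, h0]
      · rw [S_congr w le_rfl hxy]
        exact hx.2.2.1
      · rw [S_congr w h2.le hxy]
        exact hx.2.2.2 m h1 h2

theorem first_le (w : ℕ → ℤ → ℤ) (g : ℝ → ℝ) (Y : Set ℝ) (C : ℝ≥0∞) (N : ℕ) (j : ℤ)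
    (h : ∀ n i, N ≤ n → slope w n i = 0 → volume (g '' (Y ∩ J n i)) ≤ C * volume (J n i))
    (n : ℕ) : volume (g '' (Y ∩ first w N j n)) ≤ C * volume (first w N j n) := by
  have hU : first w N j n = ⋃ i : ℤ, first w N j n ∩ J n i := by
    ext x
    simp only [mem_iUnion, mem_inter_iff]
    exact ⟨fun hx => ⟨⌊(2:ℝ) ^ n * x⌋, hx, rfl⟩, fun ⟨_, hx, _⟩ => hx⟩
  have hd : Pairwise (Function.onFun Disjoint fun i : ℤ => first w N j n ∩ J n i) := by
    intro i i' hi
    exact (J_disj n hi).mono inter_subset_right inter_subset_right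
  have hm : ∀ i : ℤ, MeasurableSet (first w N j n ∩ J n i) := fun i =>
    (measurableSet_first w N j n).inter (measurableSet_J n i)
  have hI : g '' (Y ∩ first w N j n) = ⋃ i : ℤ, g '' (Y ∩ (first w N j n ∩ J n i)) := by
    conv_lhs => rw [hU]
    rw [inter_iUnion, image_iUnion]
  calc volume (g '' (Y ∩ first w N j n))
      = volume (⋃ i : ℤ, g '' (Y ∩ (first w N j n ∩ J n i))) := by rw [hI]
    _ ≤ ∑' i : ℤ, volume (g '' (Y ∩ (first w N j n ∩ J n i))) := measure_iUnion_le _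
    _ ≤ ∑' i : ℤ, C * volume (first w N j n ∩ J n i) := by
        refine ENNReal.tsum_le_tsum fun i => ?_
        rcases first_inter_J w N j n i with he | ⟨h1, h2, h3⟩
        · rw [he]
          simp
        · rw [h3]
          exact h n i h1 h2
    _ = C * ∑' i : ℤ, volume (first w N j n ∩ J n i) := ENNReal.tsum_mul_left
    _ = C * volume (⋃ i : ℤ, first w N j n ∩ J n i) := by rw [measure_iUnion hd hm]
    _ = C * volume (first w N j n) := by rw [← hU]

end R109.GT.PC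

namespace R109.GT

open PC

theorem vol_J (n : ℕ) (j : ℤ) : volume (J n j) = ENNReal.ofReal (1 / 2 ^ n) := by
  rw [J_eq_Ico, Real.volume_Ico]
  congr 1
  ring

theorem sum_le (w : ℕ → ℤ → ℤ) (g : ℝ → ℝ) (Y : Set ℝ) (C : ℝ≥0∞) (N : ℕ) (j : ℤ)
    (h : ∀ n i, N ≤ n → slope w n i = 0 → volume (g '' (Y ∩ J n i)) ≤ C * volume (J n i)) :
    ∑' n, volume (g '' (Y ∩ first w N j n)) ≤ C * volume (J N j) := by
  calc ∑' n, volume (g '' (Y ∩ first w N j n))
      ≤ ∑' n, C * volume (first w N j n) :=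
        ENNReal.tsum_le_tsum fun n => first_le w g Y C N j h n
    _ = C * ∑' n, volume (first w N j n) := ENNReal.tsum_mul_left
    _ = C * volume (⋃ n, first w N j n) := by
        rw [measure_iUnion (first_disj w N j) (measurableSet_first w N j)]
    _ ≤ C * volume (J N j) := by
        gcongr
        exact iUnion_subset fun n x hx => hx.1

end R109.GT
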