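import Pool.Agent.R109.GT.A

open MeasureTheory Set Filter Topology
open scoped ENNReal

namespace R109.GT

/-- statement of piece B -/
def HB : Prop := ∀ (w : ℕ → ℤ → ℤ), Sgn w → ∀ (N : ℕ) (j : ℤ),
    {y : ℝ | ¬ {x | x ∈ J N j ∧ (∀ n, N ≤ n → S w n x ≠ 0) ∧ tak w x = y}.Finite}.Countable

/-- first statement of piece C -/
def HV : Prop := ∀ (n : ℕ) (j : ℤ), volume (J n j) = ENNReal.ofReal (1 / 2 ^ n)

/-- second statement of piece C -/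
def HS : Prop := ∀ (w : ℕ → ℤ → ℤ) (g : ℝ → ℝ) (Y : Set ℝ) (C : ℝ≥0∞) (N : ℕ) (j : ℤ),
    (∀ n i, N ≤ n → slope w n i = 0 → volume (g '' (Y ∩ J n i)) ≤ C * volume (J n i)) →
    ∑' n, volume (g '' (Y ∩ first w N j n)) ≤ C * volume (J N j)

theorem flat_vol (vol_J : HV) (w : ℕ → ℤ → ℤ) (hw : Sgn w) (n : ℕ) (i : ℤ) (hs : slope w n i = 0) :
    volume (tak w '' (univ ∩ J n i)) ≤ 2 * volume (J n i) := by
  have hp : (0:ℝ) < 2 ^ n := by positivity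
  have hsub : tak w '' (univ ∩ J n i) ⊆
      Metric.closedBall ((val w n i : ℝ) / 2 ^ n) (1 / 2 ^ n) := by
    rintro _ ⟨x, ⟨-, hx⟩, rfl⟩
    have hx' : ⌊(2:ℝ) ^ n * x⌋ = i := hx
    have hS : S w n x = 0 := by
      unfold S
      rw [hx', hs]
    rw [Metric.mem_closedBall, Real.dist_eq, tak_eq w hw n x, hS, hx', Int.cast_zero, zero_mul,
      add_zero, ← sub_div, add_sub_cancel_left, abs_div, abs_of_pos hp]
    exact div_le_div_of_nonneg_right (bound _ (fun m k => hw (n + m) k) _) hp.le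
  refine (measure_mono hsub).trans ?_
  rw [Real.volume_closedBall, vol_J, ENNReal.ofReal_mul (by norm_num), ENNReal.ofReal_ofNat]

theorem ae_ev (vol_J : HV) (sum_le : HS) (w : ℕ → ℤ → ℤ) (hw : Sgn w) (N : ℕ) (j : ℤ) :
    ∀ᵐ y ∂(volume : Measure ℝ), ∀ᶠ n in atTop, y ∉ tak w '' (univ ∩ first w N j n) := by
  apply ae_eventually_notMem
  have h := sum_le w (tak w) univ 2 N j (fun n i _ hs => flat_vol vol_J w hw n i hs)
  refine ne_top_of_le_ne_top ?_ h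
  rw [vol_J]
  exact ENNReal.mul_ne_top (by norm_num) ENNReal.ofReal_ne_top

/-- dyadic rationals -/
def Dy : Set ℝ := range fun p : ℕ × ℤ => (p.2 : ℝ) / 2 ^ p.1

theorem floor_near (x : ℝ) (hx : x ∉ Dy) (n : ℕ) :
    ∀ᶠ z in 𝓝 x, ⌊(2:ℝ) ^ n * z⌋ = ⌊(2:ℝ) ^ n * x⌋ := by
  have hp : (0:ℝ) < 2 ^ n := by positivity
  have h1 : (⌊(2:ℝ) ^ n * x⌋ : ℝ) < 2 ^ n * x := by
    refine lt_of_le_of_ne (Int.floor_le _) fun h => hx ?_
    refine ⟨(n, ⌊(2:ℝ) ^ n * x⌋), ?_⟩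
    change (⌊(2:ℝ) ^ n * x⌋ : ℝ) / 2 ^ n = x
    rw [h, mul_div_cancel_left₀ _ hp.ne']
  have h2 : (2:ℝ) ^ n * x < (⌊(2:ℝ) ^ n * x⌋ : ℝ) + 1 := Int.lt_floor_add_one _
  have hc : Continuous fun z : ℝ => (2:ℝ) ^ n * z := continuous_const.mul continuous_id
  have h3 : ∀ᶠ z in 𝓝 x, (2:ℝ) ^ n * z ∈ Ioo (⌊(2:ℝ) ^ n * x⌋ : ℝ) ((⌊(2:ℝ) ^ n * x⌋ : ℝ) + 1) :=
    hc.continuousAt.eventually_mem (Ioo_mem_nhds h1 h2)
  filter_upwards [h3] with z hz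
  rw [Int.floor_eq_iff]
  exact ⟨hz.1.le, hz.2⟩

theorem det_part (w : ℕ → ℤ → ℤ) (hw : Sgn w) (y : ℝ)
    (h1 : y ∉ tak w '' (Z w ∩ Ico 0 1)) (h2 : y ∉ tak w '' Dy)
    (h3 : ∀ N j, {x | x ∈ J N j ∧ (∀ n, N ≤ n → S w n x ≠ 0) ∧ tak w x = y}.Finite)
    (h4 : ∀ N j, ∀ᶠ n in atTop, y ∉ tak w '' (univ ∩ first w N j n)) :
    {x | x ∈ Icc (0:ℝ) 1 ∧ tak w x = y}.Finite := by
  by_contra hinf
  set L : Set ℝ := {x | x ∈ Icc (0:ℝ) 1 ∧ tak w x = y} with hL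
  have hLI : L.Infinite := hinf
  have hLs : L ⊆ Icc (0:ℝ) 1 := fun x hx => hx.1
  obtain ⟨x, hxI, hacc⟩ := hLI.exists_accPt_of_subset_isCompact isCompact_Icc hLs
  have hLc : IsClosed L := by
    have e : L = Icc (0:ℝ) 1 ∩ {x | tak w x = y} := rfl
    rw [e]
    exact isClosed_Icc.inter (isClosed_eq (cont w hw) continuous_const)
  have hxL : x ∈ L := by
    have : x ∈ closure L := mem_closure_iff_clusterPt.2 hacc.clusterPt
    rwa [hLc.closure_eq] at this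
  have hy : tak w x = y := hxL.2
  have hxD : x ∉ Dy := fun h => h2 ⟨x, h, hy⟩
  have hx1 : x ∈ Ico (0:ℝ) 1 := by
    refine ⟨hxI.1, lt_of_le_of_ne hxI.2 fun h => hxD ?_⟩
    exact ⟨(0, 1), by simp [h]⟩
  have hxZ : x ∉ Z w := fun h => h1 ⟨x, ⟨h, hx1⟩, hy⟩
  have hev : ∀ᶠ n in atTop, S w n x ≠ 0 := by
    have : ¬ ∃ᶠ n in atTop, S w n x = 0 := hxZ
    rw [not_frequently] at this
    exact this
  obtain ⟨N, hN⟩ := eventually_atTop.1 hev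
  obtain ⟨n0, hn0⟩ := eventually_atTop.1 (h4 N ⌊(2:ℝ) ^ N * x⌋)
  have hnear := floor_near x hxD (max N n0)
  have hfl : ∀ z : ℝ, ⌊(2:ℝ) ^ (max N n0) * z⌋ = ⌊(2:ℝ) ^ (max N n0) * x⌋ →
      ∀ m, m ≤ max N n0 → ⌊(2:ℝ) ^ m * z⌋ = ⌊(2:ℝ) ^ m * x⌋ := by
    intro z hz m hm
    obtain ⟨k, hk⟩ := Nat.exists_eq_add_of_le hm
    rw [floor_div m k z, floor_div m k x, ← hk, hz]
  set F : Set ℝ := {z | z ∈ J N ⌊(2:ℝ) ^ N * x⌋ ∧ (∀ n, N ≤ n → S w n z ≠ 0) ∧ tak w z = y}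
    with hF
  have hFf : F.Finite := h3 N _
  have hsub : ∀ z : ℝ, ⌊(2:ℝ) ^ (max N n0) * z⌋ = ⌊(2:ℝ) ^ (max N n0) * x⌋ → z ∈ L →
      z ∈ F := by
    intro z hz hzL
    have hJ : z ∈ J N ⌊(2:ℝ) ^ N * x⌋ := hfl z hz N (le_max_left _ _)
    refine ⟨hJ, ?_, hzL.2⟩
    by_contra hcon
    push Not at hcon
    classical
    have hex : ∃ n, N ≤ n ∧ S w n z = 0 := hcon
    obtain ⟨hn1, hn2⟩ := Nat.find_spec hex
    have hmin : ∀ m, N ≤ m → m < Nat.find hex → S w m z ≠ 0 := fun m hm hlt h0 =>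
      Nat.find_min hex hlt ⟨hm, h0⟩
    have hfirst : z ∈ first w N ⌊(2:ℝ) ^ N * x⌋ (Nat.find hex) := ⟨hJ, hn1, hn2, hmin⟩
    have hlt : Nat.find hex < n0 := by
      by_contra hge
      push Not at hge
      exact hn0 _ hge ⟨z, ⟨mem_univ _, hfirst⟩, hzL.2⟩
    have hSe : S w (Nat.find hex) z = S w (Nat.find hex) x :=
      congrArg (slope w (Nat.find hex)) (hfl z hz _ (hlt.le.trans (le_max_right _ _)))
    exact hN _ hn1 (hSe ▸ hn2)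
  have hcl : ∀ᶠ z in 𝓝 x, z ∉ F \ {x} := by
    have hfin : (F \ {x}).Finite := hFf.subset sdiff_subset
    exact hfin.isClosed.isOpen_compl.mem_nhds (fun h => h.2 rfl)
  rw [accPt_iff_frequently] at hacc
  obtain ⟨z, ⟨hzx, hzL⟩, hz1, hz2⟩ := (hacc.and_eventually (hnear.and hcl)).exists
  exact hz2 ⟨hsub z hz1 hzL, hzx⟩

theorem ae_finite_of (fib_countable : HB) (vol_J : HV) (sum_le : HS) (w : ℕ → ℤ → ℤ)
    (hw : Sgn w) (hZ : volume (tak w '' (Z w ∩ Ico 0 1)) = 0) :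
    ∀ᵐ y ∂(volume : Measure ℝ), {x | x ∈ Icc (0:ℝ) 1 ∧ tak w x = y}.Finite := by
  have a1 : ∀ᵐ y ∂(volume : Measure ℝ), y ∉ tak w '' (Z w ∩ Ico 0 1) :=
    measure_eq_zero_iff_ae_notMem.1 hZ
  have a2 : ∀ᵐ y ∂(volume : Measure ℝ), y ∉ tak w '' Dy := by
    apply measure_eq_zero_iff_ae_notMem.1
    exact (((countable_range _).image _).measure_zero _)
  have a3 : ∀ᵐ y ∂(volume : Measure ℝ), ∀ N : ℕ, ∀ j : ℤ,
      {x | x ∈ J N j ∧ (∀ n, N ≤ n → S w n x ≠ 0) ∧ tak w x = y}.Finite := by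
    rw [ae_all_iff]
    intro N
    rw [ae_all_iff]
    intro j
    have h := (fib_countable w hw N j).measure_zero volume
    exact h
  have a4 : ∀ᵐ y ∂(volume : Measure ℝ), ∀ N : ℕ, ∀ j : ℤ,
      ∀ᶠ n in atTop, y ∉ tak w '' (univ ∩ first w N j n) := by
    rw [ae_all_iff]
    intro N
    rw [ae_all_iff]
    intro j
    exact ae_ev vol_J sum_le w hw N j
  filter_upwards [a1, a2, a3, a4] with y h1 h2 h3 h4
  exact det_part w hw y h1 h2 h3 h4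

end R109.GT
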