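import Pool.Agent.R109.GT.B
import Pool.Agent.R109.GT.C
import Pool.Agent.R109.GT.D

open MeasureTheory Set Filter Topology
open scoped ENNReal

namespace R109.GT

theorem ae_finite (w : ℕ → ℤ → ℤ) (hw : Sgn w) (hZ : volume (tak w '' (Z w ∩ Ico 0 1)) = 0) :
    ∀ᵐ y ∂(volume : Measure ℝ), {x | x ∈ Icc (0:ℝ) 1 ∧ tak w x = y}.Finite :=
  ae_finite_of fib_countable vol_J sum_le w hw hZ

end R109.GT
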