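import Mathlib

/-! Definitions for MP_cc494f_an Q2 (level sets of generalized Takagi functions). -/

open MeasureTheory Set Filter Topology
open scoped ENNReal

namespace R109.GT

/-- distance to the nearest integer -/
noncomputable def phi (x : ℝ) : ℝ := |x - round x|

/-- generalized Takagi function (on all of `ℝ`) with sign array `w`;
`w n j` is the sign on the dyadic interval `[j/2^n, (j+1)/2^n)`. -/
noncomputable def tak (w : ℕ → ℤ → ℤ) (x : ℝ) : ℝ :=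
  ∑' n : ℕ, (w n ⌊(2:ℝ) ^ n * x⌋ : ℝ) * phi ((2:ℝ) ^ n * x) / 2 ^ n

/-- partial sum: the first `n` terms -/
noncomputable def part (w : ℕ → ℤ → ℤ) (n : ℕ) (x : ℝ) : ℝ :=
  ∑ m ∈ Finset.range n, (w m ⌊(2:ℝ) ^ m * x⌋ : ℝ) * phi ((2:ℝ) ^ m * x) / 2 ^ m

/-- slope of the `n`-th partial sum on the `j`-th dyadic interval of level `n` -/
def slope (w : ℕ → ℤ → ℤ) : ℕ → ℤ → ℤ
  | 0, _ => 0
  | n + 1, j => slope w n (j / 2) + w n (j / 2) * (if j % 2 = 0 then 1 else -1)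

/-- `2^n` times the value of the `n`-th partial sum at the left endpoint `j/2^n` -/
def val (w : ℕ → ℤ → ℤ) : ℕ → ℤ → ℤ
  | 0, _ => 0
  | n + 1, j => 2 * val w n (j / 2) + (if j % 2 = 0 then 0 else slope w n (j / 2) + w n (j / 2))

/-- slope at level `n` at the point `x` -/
noncomputable def S (w : ℕ → ℤ → ℤ) (n : ℕ) (x : ℝ) : ℤ := slope w n ⌊(2:ℝ) ^ n * x⌋

/-- `w` takes values `1` and `-1` only -/
def Sgn (w : ℕ → ℤ → ℤ) : Prop := ∀ n j, w n j = 1 ∨ w n j = -1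

/-- the dyadic interval `[j/2^n, (j+1)/2^n)` -/
def J (n : ℕ) (j : ℤ) : Set ℝ := {x | ⌊(2:ℝ) ^ n * x⌋ = j}

/-- points of `J N j` whose first zero slope at a level `≥ N` is at level `n` -/
def first (w : ℕ → ℤ → ℤ) (N : ℕ) (j : ℤ) (n : ℕ) : Set ℝ :=
  {x | x ∈ J N j ∧ N ≤ n ∧ S w n x = 0 ∧ ∀ m, N ≤ m → m < n → S w m x ≠ 0}

/-- points with zero slope at infinitely many levels -/
def Z (w : ℕ → ℤ → ℤ) : Set ℝ := {x | ∃ᶠ n in atTop, S w n x = 0}

/-- the Gray sign array: `(-1)^j` on the `j`-th interval of each level -/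
def gw : ℕ → ℤ → ℤ := fun _ j => if j % 2 = 0 then 1 else -1

end R109.GT
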