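import Pool.Agent.R109.GT.A

/-! Piece E (MP_cc494f_an Q2): self-similarity of the Gray Takagi function. -/

open MeasureTheory Set Filter Topology
open scoped ENNReal Pointwise

namespace R109.GT

namespace E

theorem sgn_gw : Sgn gw := by
  intro n j
  unfold gw
  split_ifs
  · left; rfl
  · right; rfl

theorem phi_add_int (x : ℝ) (m : ℤ) : phi (x + m) = phi x := by
  unfold phi
  rw [round_add_intCast]
  push_cast
  congr 1
  ring

theorem pow_shift (n : ℕ) (u : ℝ) (q : ℤ) :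
    (2:ℝ) ^ n * (u + 2 * (q:ℝ)) = (2:ℝ) ^ n * u + ((2 * (2 ^ n * q) : ℤ) : ℝ) := by
  push_cast
  ring

theorem floor_shift (n : ℕ) (u : ℝ) (q : ℤ) :
    ⌊(2:ℝ) ^ n * (u + 2 * (q:ℝ))⌋ = ⌊(2:ℝ) ^ n * u⌋ + 2 * (2 ^ n * q) := by
  rw [pow_shift, Int.floor_add_intCast]

theorem gw_shift (n : ℕ) (i q : ℤ) : gw n (i + 2 * q) = gw n i := by
  unfold gw
  rw [Int.add_mul_emod_self_left]

theorem tak_shift (u : ℝ) (q : ℤ) : tak gw (u + 2 * (q:ℝ)) = tak gw u := by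
  unfold tak
  congr 1
  funext n
  rw [floor_shift, gw_shift, pow_shift, phi_add_int]

theorem slope_shift (n : ℕ) : ∀ i q : ℤ, slope gw n (i + 2 * (2 ^ n * q)) = slope gw n i := by
  induction n with
  | zero => intro i q; rfl
  | succ n ih =>
    intro i q
    have h1 : (i + 2 * (2 ^ (n + 1) * q)) / 2 = i / 2 + 2 * (2 ^ n * q) := by
      have e : i + 2 * (2 ^ (n + 1) * q) = i + (2 * (2 ^ n * q)) * 2 := by ring
      rw [e, Int.add_mul_ediv_right _ _ (by norm_num)]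
    have h2 : (i + 2 * (2 ^ (n + 1) * q)) % 2 = i % 2 := Int.add_mul_emod_self_left _ _ _
    show slope gw n ((i + 2 * (2 ^ (n + 1) * q)) / 2) + gw n ((i + 2 * (2 ^ (n + 1) * q)) / 2) *
      (if (i + 2 * (2 ^ (n + 1) * q)) % 2 = 0 then 1 else -1) = _
    rw [h1, h2, ih, gw_shift]
    rfl

theorem S_shift (n : ℕ) (u : ℝ) (q : ℤ) : S gw n (u + 2 * (q:ℝ)) = S gw n u := by
  unfold S
  rw [floor_shift, slope_shift]

theorem Z_shift (u : ℝ) (q : ℤ) : u + 2 * (q:ℝ) ∈ Z gw ↔ u ∈ Z gw := by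
  unfold Z
  simp only [Set.mem_ofPred_eq, S_shift]

theorem slope_add (n m : ℕ) : ∀ i : ℤ, slope gw (n + m) i = slope gw n (i / 2 ^ m) + slope gw m i := by
  induction m with
  | zero => intro i; simp [slope]
  | succ m ih =>
    intro i
    have h1 : slope gw (n + (m + 1)) i = slope gw (n + m) (i / 2) +
      gw (n + m) (i / 2) * (if i % 2 = 0 then 1 else -1) := rfl
    have h2 : slope gw (m + 1) i = slope gw m (i / 2) +
      gw m (i / 2) * (if i % 2 = 0 then 1 else -1) := rfl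
    have h3 : i / 2 / 2 ^ m = i / 2 ^ (m + 1) := by
      rw [Int.ediv_ediv_of_nonneg (by norm_num), pow_succ']
    have h4 : gw (n + m) (i / 2) = gw m (i / 2) := rfl
    rw [h1, h2, ih, h3, h4]
    ring

theorem S_add (n m : ℕ) (u : ℝ) : S gw (n + m) u = S gw n u + S gw m ((2:ℝ) ^ n * u) := by
  unfold S
  rw [slope_add, ← floor_div]
  congr 3
  rw [pow_add]
  ring

theorem Z_scale (n : ℕ) (u : ℝ) (h : S gw n u = 0) : u ∈ Z gw ↔ (2:ℝ) ^ n * u ∈ Z gw := by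
  unfold Z
  simp only [Set.mem_ofPred_eq]
  have h1 : (∃ᶠ k in atTop, S gw k u = 0) ↔ ∃ᶠ m in atTop, S gw (m + n) u = 0 := by
    conv_lhs => rw [← Filter.map_add_atTop_eq_nat n]
    rw [Filter.frequently_map]
  rw [h1]
  have h2 : ∀ m, S gw (m + n) u = S gw m ((2:ℝ) ^ n * u) := by
    intro m
    rw [add_comm m n, S_add, h, zero_add]
  simp only [h2]

theorem S_of_J {n : ℕ} {i : ℤ} {u : ℝ} (hu : u ∈ J n i) : S gw n u = slope gw n i := by
  have h : ⌊(2:ℝ) ^ n * u⌋ = i := hu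
  unfold S
  rw [h]

theorem tak_scale {n : ℕ} {i : ℤ} (hs : slope gw n i = 0) {u : ℝ} (hu : u ∈ J n i) :
    tak gw u = ((val gw n i : ℝ) + tak gw ((2:ℝ) ^ n * u)) / 2 ^ n := by
  have h1 := tak_eq gw sgn_gw n u
  have h2 : ⌊(2:ℝ) ^ n * u⌋ = i := hu
  rw [S_of_J hu, hs, h2] at h1
  have h3 : (fun m => gw (n + m)) = gw := rfl
  rw [h3] at h1
  rw [h1]
  simp

theorem formula (n : ℕ) (i : ℤ) (hs : slope gw n i = 0) :
    tak gw '' (Z gw ∩ J n i) =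
      (fun v : ℝ => ((val gw n i : ℝ) + v) / 2 ^ n) '' (tak gw '' (Z gw ∩ J 0 (i % 2))) := by
  have hip : i = i % 2 + 2 * (i / 2) := (Int.emod_add_mul_ediv i 2).symm
  have h2n : (0:ℝ) < 2 ^ n := by positivity
  apply Set.Subset.antisymm
  · rintro _ ⟨u, ⟨huZ, huJ⟩, rfl⟩
    have hS : S gw n u = 0 := (S_of_J huJ).trans hs
    have hfl : ⌊(2:ℝ) ^ n * u⌋ = i := huJ
    refine ⟨tak gw ((2:ℝ) ^ n * u + 2 * ((-(i / 2) : ℤ) : ℝ)),
      ⟨(2:ℝ) ^ n * u + 2 * ((-(i / 2) : ℤ) : ℝ), ⟨?_, ?_⟩, rfl⟩, ?_⟩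
    · rw [Z_shift]
      exact (Z_scale n u hS).1 huZ
    · have h0 := floor_shift 0 ((2:ℝ) ^ n * u) (-(i / 2))
      show ⌊(2:ℝ) ^ 0 * ((2:ℝ) ^ n * u + 2 * ((-(i / 2) : ℤ) : ℝ))⌋ = i % 2
      rw [h0]
      rw [pow_zero, one_mul, hfl]
      omega
    · show ((val gw n i : ℝ) + tak gw ((2:ℝ) ^ n * u + 2 * ((-(i / 2) : ℤ) : ℝ))) / 2 ^ n = _
      rw [tak_shift, tak_scale hs huJ]
  · rintro _ ⟨_, ⟨t, ⟨htZ, htJ⟩, rfl⟩, rfl⟩
    have htf : ⌊(2:ℝ) ^ 0 * t⌋ = i % 2 := htJ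
    rw [pow_zero, one_mul] at htf
    set u : ℝ := (t + 2 * ((i / 2 : ℤ) : ℝ)) / 2 ^ n with hu
    have hu2 : (2:ℝ) ^ n * u = t + 2 * ((i / 2 : ℤ) : ℝ) := by
      rw [hu]; field_simp
    have huJ : u ∈ J n i := by
      show ⌊(2:ℝ) ^ n * u⌋ = i
      rw [hu2]
      have h0 := floor_shift 0 t (i / 2)
      rw [pow_zero, one_mul, one_mul] at h0
      rw [h0, htf]
      omega
    have hS : S gw n u = 0 := (S_of_J huJ).trans hs
    refine ⟨u, ⟨?_, huJ⟩, ?_⟩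
    · rw [Z_scale n u hS, hu2, Z_shift]
      exact htZ
    · rw [tak_scale hs huJ, hu2, tak_shift]

theorem vol_J' (n : ℕ) (j : ℤ) : volume (J n j) = ENNReal.ofReal (1 / 2 ^ n) := by
  have h2n : (0:ℝ) < 2 ^ n := by positivity
  have h : J n j = Ico ((j:ℝ) / 2 ^ n) (((j:ℝ) + 1) / 2 ^ n) := by
    ext x
    show ⌊(2:ℝ) ^ n * x⌋ = j ↔ _
    rw [Int.floor_eq_iff, Set.mem_Ico, div_le_iff₀ h2n, lt_div_iff₀ h2n, mul_comm x]
  rw [h, Real.volume_Ico]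
  congr 1
  ring

theorem vol_affine (A : Set ℝ) (c : ℝ) (n : ℕ) :
    volume ((fun v : ℝ => (c + v) / 2 ^ n) '' A) = ENNReal.ofReal (1 / 2 ^ n) * volume A := by
  have h1 : (fun v : ℝ => (c + v) / 2 ^ n) '' A =
      ((1:ℝ) / 2 ^ n) • ((fun v : ℝ => c + v) '' A) := by
    rw [← Set.image_smul, Set.image_image]
    apply Set.image_congr
    intro v _
    rw [smul_eq_mul]
    ring
  rw [h1, Measure.addHaar_smul, Set.image_add_left, measure_preimage_add]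
  congr 2
  rw [Module.finrank_self, pow_one, abs_of_nonneg (by positivity)]

end E

theorem dup_gray (n : ℕ) (i j : ℤ) (hi : slope gw n i = 0) (hj : slope gw n j = 0)
    (hv : val gw n i = val gw n j) (hp : i % 2 = j % 2) :
    tak gw '' (Z gw ∩ J n i) = tak gw '' (Z gw ∩ J n j) := by
  rw [E.formula n i hi, E.formula n j hj, hv, hp]

theorem flat_gray (m : ℝ≥0∞)
    (h0 : volume (tak gw '' (Z gw ∩ J 0 0)) ≤ m) (h1 : volume (tak gw '' (Z gw ∩ J 0 1)) ≤ m)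
    (n : ℕ) (i : ℤ) (hs : slope gw n i = 0) :
    volume (tak gw '' (Z gw ∩ J n i)) ≤ m * volume (J n i) := by
  rw [E.formula n i hs, E.vol_affine, E.vol_J', mul_comm]
  refine mul_le_mul_left ?_ _
  rcases Int.emod_two_eq_zero_or_one i with h | h
  · rw [h]; exact h0
  · rw [h]; exact h1

end R109.GT
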