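import Pool.Agent.R109.GT.A
import Pool.Agent.R109.GT.C
import Pool.Agent.R109.GT.E

open MeasureTheory Set Filter Topology
open scoped ENNReal

namespace R109.GT


theorem gw_sgn : Sgn gw := by
  intro n j
  unfold gw
  by_cases h : j % 2 = 0 <;> simp [h]

theorem step1 (m : ℝ≥0∞)
    (h0 : volume (tak gw '' (Z gw ∩ J 0 0)) ≤ m) (h1 : volume (tak gw '' (Z gw ∩ J 0 1)) ≤ m)
    (N : ℕ) (j : ℤ) :
    volume (tak gw '' (Z gw ∩ J N j)) ≤ m * volume (J N j) := by
  have hsub : tak gw '' (Z gw ∩ J N j) ⊆ ⋃ n : ℕ, tak gw '' (Z gw ∩ first gw N j n) := by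
    rintro _ ⟨u, ⟨hz, hj⟩, rfl⟩
    have hz' : ∃ n, N ≤ n ∧ S gw n u = 0 := by
      have := (frequently_atTop.mp hz) N
      obtain ⟨n, hn, h⟩ := this
      exact ⟨n, hn, h⟩
    classical
    refine mem_iUnion.2 ⟨Nat.find hz', u, ⟨hz, ⟨hj, (Nat.find_spec hz').1, (Nat.find_spec hz').2, ?_⟩⟩, rfl⟩
    intro k hk hkn hS
    exact Nat.find_min hz' hkn ⟨hk, hS⟩
  calc volume (tak gw '' (Z gw ∩ J N j)) ≤ volume (⋃ n : ℕ, tak gw '' (Z gw ∩ first gw N j n)) :=
        measure_mono hsub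
    _ ≤ ∑' n, volume (tak gw '' (Z gw ∩ first gw N j n)) := measure_iUnion_le _
    _ ≤ m * volume (J N j) := sum_le gw (tak gw) (Z gw) m N j
        (fun n i _ hs => flat_gray m h0 h1 n i hs)

theorem step2 (p a b : ℤ) (ha : a / 16 = p) (hb : b / 16 = p) (hab : a ≠ b)
    (hdup : tak gw '' (Z gw ∩ J 4 b) = tak gw '' (Z gw ∩ J 4 a)) (m : ℝ≥0∞)
    (H : ∀ i, volume (tak gw '' (Z gw ∩ J 4 i)) ≤ m * volume (J 4 i)) :
    volume (tak gw '' (Z gw ∩ J 0 p)) ≤ 15 * (m * ENNReal.ofReal (1 / 2 ^ 4)) := by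
  have hsub : tak gw '' (Z gw ∩ J 0 p) ⊆
      ⋃ i ∈ (Finset.Ico (16 * p) (16 * p + 16)).erase b, tak gw '' (Z gw ∩ J 4 i) := by
    rintro _ ⟨u, ⟨hz, hj⟩, rfl⟩
    have h4 := floor_div 0 4 u
    have hj' : ⌊(2:ℝ) ^ 0 * u⌋ = p := hj
    rw [hj'] at h4
    norm_num at h4
    by_cases hib : ⌊(16:ℝ) * u⌋ = b
    · have hmem : tak gw u ∈ tak gw '' (Z gw ∩ J 4 a) := by
        rw [← hdup]
        refine ⟨u, ⟨hz, ?_⟩, rfl⟩
        show ⌊(2:ℝ) ^ 4 * u⌋ = b
        norm_num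
        exact hib
      refine mem_iUnion₂.2 ⟨a, ?_, hmem⟩
      rw [Finset.mem_erase, Finset.mem_Ico]
      refine ⟨hab, ?_, ?_⟩ <;> omega
    · refine mem_iUnion₂.2 ⟨⌊(16:ℝ) * u⌋, ?_, u, ⟨hz, ?_⟩, rfl⟩
      · rw [Finset.mem_erase, Finset.mem_Ico]
        refine ⟨hib, ?_, ?_⟩ <;> omega
      · show ⌊(2:ℝ) ^ 4 * u⌋ = _
        norm_num
  have hcard : ((Finset.Ico (16 * p) (16 * p + 16)).erase b).card = 15 := by
    rw [Finset.card_erase_of_mem, Int.card_Ico]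
    · have : (16 * p + 16 - 16 * p) = 16 := by ring
      rw [this]; rfl
    · rw [Finset.mem_Ico]
      constructor <;> omega
  calc volume (tak gw '' (Z gw ∩ J 0 p)) ≤ _ := measure_mono hsub
    _ ≤ ∑ i ∈ (Finset.Ico (16 * p) (16 * p + 16)).erase b, volume (tak gw '' (Z gw ∩ J 4 i)) :=
        measure_biUnion_finset_le _ _
    _ ≤ ((Finset.Ico (16 * p) (16 * p + 16)).erase b).card • (m * ENNReal.ofReal (1 / 2 ^ 4)) := by
        apply Finset.sum_le_card_nsmul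
        intro i _
        rw [← vol_J 4 i]
        exact H i
    _ = 15 * (m * ENNReal.ofReal (1 / 2 ^ 4)) := by
        rw [hcard, nsmul_eq_mul]
        norm_num

theorem null_gray : volume (tak gw '' (Z gw ∩ Ico 0 1)) = 0 := by
  have hJ : (Ico (0:ℝ) 1) = J 0 0 := by
    ext x
    simp only [J, pow_zero, one_mul, mem_ofPred_eq, mem_Ico, Int.floor_eq_zero_iff]
  rw [hJ]
  set a0 := volume (tak gw '' (Z gw ∩ J 0 0)) with ha0
  set a1 := volume (tak gw '' (Z gw ∩ J 0 1)) with ha1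
  set m := max a0 a1 with hm
  have hfin : ∀ s : Set ℝ, volume (tak gw '' s) ≤ 2 := by
    intro s
    calc volume (tak gw '' s) ≤ volume (Icc (-1:ℝ) 1) := by
          apply measure_mono
          rintro _ ⟨u, _, rfl⟩
          exact abs_le.mp (bound gw gw_sgn u)
      _ = 2 := by rw [Real.volume_Icc]; norm_num
  have hmfin : m ≠ ∞ := by
    refine ne_top_of_le_ne_top (b := 2) (by norm_num) ?_
    exact max_le (hfin _) (hfin _)
  have H : ∀ i, volume (tak gw '' (Z gw ∩ J 4 i)) ≤ m * volume (J 4 i) := fun i =>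
    step1 m (le_max_left _ _) (le_max_right _ _) 4 i
  have e0 : a0 ≤ 15 * (m * ENNReal.ofReal (1 / 2 ^ 4)) :=
    step2 0 2 6 (by norm_num) (by norm_num) (by norm_num)
      (dup_gray 4 6 2 (by decide) (by decide) (by decide) (by decide)) m H
  have e1 : a1 ≤ 15 * (m * ENNReal.ofReal (1 / 2 ^ 4)) :=
    step2 1 25 29 (by norm_num) (by norm_num) (by norm_num)
      (dup_gray 4 29 25 (by decide) (by decide) (by decide) (by decide)) m H
  have e : m ≤ 15 * (m * ENNReal.ofReal (1 / 2 ^ 4)) := max_le e0 e1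
  have hm0 : m = 0 := by
    by_contra hne
    have hpos : 0 < m.toReal := ENNReal.toReal_pos hne hmfin
    have e' := ENNReal.toReal_mono (by
      apply ENNReal.mul_ne_top (by norm_num)
      exact ENNReal.mul_ne_top hmfin ENNReal.ofReal_ne_top) e
    rw [ENNReal.toReal_mul, ENNReal.toReal_mul, ENNReal.toReal_ofReal (by positivity)] at e'
    norm_num at e'
    linarith
  exact le_antisymm (le_trans (le_max_left _ _) hm0.le) bot_le

end R109.GT
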