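import Pool.Agent.R109.GT.Defs

open MeasureTheory Set Filter Topology
open scoped ENNReal

namespace R109.GT.Stm
open R109.GT

/-! Piece A (helper109) -/
theorem cont (w : ℕ → ℤ → ℤ) (hw : Sgn w) : Continuous (tak w) := sorry
theorem bound (w : ℕ → ℤ → ℤ) (hw : Sgn w) (x : ℝ) : |tak w x| ≤ 1 := sorry
theorem floor_div (n m : ℕ) (x : ℝ) : ⌊(2:ℝ) ^ n * x⌋ = ⌊(2:ℝ) ^ (n + m) * x⌋ / 2 ^ m := sorry
theorem tak_eq (w : ℕ → ℤ → ℤ) (hw : Sgn w) (n : ℕ) (x : ℝ) :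
    tak w x = (val w n ⌊(2:ℝ) ^ n * x⌋ + S w n x * ((2:ℝ) ^ n * x - ⌊(2:ℝ) ^ n * x⌋)
      + tak (fun m => w (n + m)) ((2:ℝ) ^ n * x)) / 2 ^ n := sorry

/-! Piece B: monotonicity on the never-zero part (uses `bound`, `tak_eq`, `floor_div`) -/
theorem fib_countable (w : ℕ → ℤ → ℤ) (hw : Sgn w) (N : ℕ) (j : ℤ) :
    {y : ℝ | ¬ {x | x ∈ J N j ∧ (∀ n, N ≤ n → S w n x ≠ 0) ∧ tak w x = y}.Finite}.Countable := sorry

/-! Piece C: measure bookkeeping -/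
theorem vol_J (n : ℕ) (j : ℤ) : volume (J n j) = ENNReal.ofReal (1 / 2 ^ n) := sorry
theorem sum_le (w : ℕ → ℤ → ℤ) (g : ℝ → ℝ) (Y : Set ℝ) (C : ℝ≥0∞) (N : ℕ) (j : ℤ)
    (h : ∀ n i, N ≤ n → slope w n i = 0 → volume (g '' (Y ∩ J n i)) ≤ C * volume (J n i)) :
    ∑' n, volume (g '' (Y ∩ first w N j n)) ≤ C * volume (J N j) := sorry

/-! Piece D: reduction (uses everything above) -/
theorem ae_finite (w : ℕ → ℤ → ℤ) (hw : Sgn w) (hZ : volume (tak w '' (Z w ∩ Ico 0 1)) = 0) :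
    ∀ᵐ y ∂(volume : Measure ℝ), {x | x ∈ Icc (0:ℝ) 1 ∧ tak w x = y}.Finite := sorry

/-! Piece E: the Gray function, self-similarity -/
theorem flat_gray (m : ℝ≥0∞)
    (h0 : volume (tak gw '' (Z gw ∩ J 0 0)) ≤ m) (h1 : volume (tak gw '' (Z gw ∩ J 0 1)) ≤ m)
    (n : ℕ) (i : ℤ) (hs : slope gw n i = 0) :
    volume (tak gw '' (Z gw ∩ J n i)) ≤ m * volume (J n i) := sorry
theorem dup_gray (n : ℕ) (i j : ℤ) (hi : slope gw n i = 0) (hj : slope gw n j = 0)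
    (hv : val gw n i = val gw n j) (hp : i % 2 = j % 2) :
    tak gw '' (Z gw ∩ J n i) = tak gw '' (Z gw ∩ J n j) := sorry

/-! Piece F: conclusion for Gray (uses C, E, bound) -/
theorem null_gray : volume (tak gw '' (Z gw ∩ Ico 0 1)) = 0 := sorry

end R109.GT.Stm
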